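import Mathlib
import Pool.Agent.Helper149.Beps.CplxB

/-!
MP_975b05_an, Q1 (the same question as MP_1b7159_an, Q1): for each of the two scalar fields `ℝ` and
`ℂ` a Banach space with the bilinear extension property for subspaces which does not have type 2.
-/

set_option autoImplicit false

namespace Pool.Agent.Results.MP_975b05_an.BepsNotType2Both

open Pool.Agent.Helper579.Beps Pool.Agent.Helper149.Beps

/-- Property (BEPS) of a normed space `X` over `𝕜` (`𝕜 = ℝ` or `ℂ`): every bounded bilinear form on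
a closed subspace extends to a bounded bilinear form on the whole space. -/
def BEPS (𝕜 X : Type) [RCLike 𝕜] [NormedAddCommGroup X] [NormedSpace 𝕜 X] : Prop :=
  ∀ Y : Submodule 𝕜 X, IsClosed (Y : Set X) →
    ∀ B : Y →ₗ[𝕜] Y →ₗ[𝕜] 𝕜, (∃ b : ℝ, ∀ y z : Y, ‖B y z‖ ≤ b * ‖y‖ * ‖z‖) →
      ∃ B' : X →ₗ[𝕜] X →ₗ[𝕜] 𝕜, (∃ b : ℝ, ∀ x z : X, ‖B' x z‖ ≤ b * ‖x‖ * ‖z‖) ∧
        ∀ y z : Y, B' y z = B y z

/-- (Rademacher) type 2: the expectation over independent random signs is the average over all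
sign patterns. -/
def HasType2 (X : Type) [NormedAddCommGroup X] : Prop :=
  ∃ C : ℝ, ∀ (n : ℕ) (x : Fin n → X),
    √((∑ ε : Fin n → Bool, ‖∑ i, (if ε i then x i else -x i)‖ ^ 2) / 2 ^ n)
      ≤ C * √(∑ i, ‖x i‖ ^ 2)

/-- **Main theorem.** There is a real Banach space, and there is a complex Banach space, with
property (BEPS) which does not have type 2. -/
theorem result :
    (∃ (X : Type) (_ : NormedAddCommGroup X) (_ : NormedSpace ℝ X) (_ : CompleteSpace X),
      BEPS ℝ X ∧ ¬ HasType2 X) ∧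
    (∃ (X : Type) (_ : NormedAddCommGroup X) (_ : NormedSpace ℂ X) (_ : CompleteSpace X),
      BEPS ℂ X ∧ ¬ HasType2 X) := by
  obtain ⟨X, i1, i2, i3, h2, h4, h3⟩ := main_space4
  refine ⟨⟨X, i1, i2, i3, ?_, far_not_type2 h3⟩,
    ⟨XC X, inferInstance, inferInstance, inferInstance, ?_, far_not_type2 (far_XC h3)⟩⟩
  · intro Y _ B hB
    obtain ⟨b, hb⟩ := hB
    obtain ⟨B', hB'⟩ := Pool.Agent.Helper965.Beps.beps_of_qstar 861 h2 Y B b hb
    refine ⟨(ContinuousLinearMap.coeLM ℝ).comp (B' : X →ₗ[ℝ] X →L[ℝ] ℝ), ⟨‖B'‖, ?_⟩, ?_⟩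
    · intro x z
      exact B'.le_opNorm₂ x z
    · intro y z
      exact hB' y z
  · intro Y _ B hB
    obtain ⟨b, hb⟩ := hB
    exact beps_complex (861 * 2) (qstar_XC2 (by norm_num) h4) Y B b hb

end Pool.Agent.Results.MP_975b05_an.BepsNotType2Both
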